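import Mathlib
import Pool.Agent.TH883.Zg.Ind
import Pool.Agent.TH507.ZS.Inst

/-!
# `ζ(2n) / ζ(n) ^ 2` at large integers: no algebraic relation of exponential height
-/

set_option autoImplicit false

namespace Pool.Agent.Results.MP_f1a024_nt.ExponentialHeights

/-- `t(n) = ζ(2n) / ζ(n) ^ 2`, with the Riemann zeta function of Mathlib -/
noncomputable def t (n : ℕ) : ℂ := riemannZeta (2 * n) / riemannZeta n ^ 2

open Pool.Agent.TH507.ZS Pool.Agent.TH883.Zg in
/-- Let `h, d` be natural numbers and `C` a real number. There are `B > 1` and `n0` such that for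
all `n ≥ n0` and all nonzero polynomials `P` in `h + 1` variables with integer coefficients, of
total degree at most `d` and with all coefficients at most `C ^ n` in absolute value,
`|P (t(n), t(n+1), …, t(n+h))| > B ^ (-n)`. -/
theorem result (h d : ℕ) (C : ℝ) :
    ∃ B : ℝ, 1 < B ∧ ∃ n0 : ℕ, ∀ n : ℕ, n0 ≤ n →
      ∀ P : MvPolynomial (Fin (h + 1)) ℤ, P ≠ 0 → P.totalDegree ≤ d →
      (∀ e, |((P.coeff e : ℤ) : ℝ)| ≤ C ^ n) →
      (B ^ n)⁻¹ < ‖MvPolynomial.aeval (fun i : Fin (h + 1) => t (n + i)) P‖ := by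
  obtain ⟨B, hB, n0, hmain⟩ := poly_main' tQ tQ_mult tQ_pb (-2) (by norm_num)
    (fun p hp => tQ_prime hp) h d C
  obtain ⟨n1, hn1⟩ := dser_t
  refine ⟨B, hB, n0 + n1 + 3, fun n hn P hP hPd hPC => ?_⟩
  have h1 := hmain n (by omega) P hP hPd hPC
  have h2 : ∀ i : ℕ, t (n + i) = ((dser tQ (n + i) : ℝ) : ℂ) := by
    intro i
    rw [hn1 (n + i) (by omega), t]
    push_cast
    rw [dser_z (by omega), dser_z (by omega)]
    push_cast
    rfl
  have h3 : MvPolynomial.aeval (fun i : Fin (h + 1) => t (n + i)) P =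
      ((MvPolynomial.aeval (fun i : Fin (h + 1) => dser tQ (n + i)) P : ℝ) : ℂ) := by
    have h4 := MvPolynomial.aeval_algebraMap_apply (A := ℝ) ℂ
      (fun i : Fin (h + 1) => dser tQ (n + i)) P
    rw [Complex.coe_algebraMap] at h4
    rw [← h4]
    congr 2
    funext i
    exact h2 i
  rw [h3, Complex.norm_real, Real.norm_eq_abs]
  exact h1

end Pool.Agent.Results.MP_f1a024_nt.ExponentialHeights
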