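import Pool.Agent.TH456.TM.ZetaQ

/-!
# `ζ(2n)/ζ(n)²` and the numbers `ζ(n) π^j`

They are simultaneously badly approximable by algebraic numbers of bounded degree, and near misses
are rare.
-/

set_option autoImplicit false

namespace Pool.Agent.Results.MP_f1a024_nt.SimultaneousMeasure

open Polynomial

/-- `t(n) = ζ(2n)/ζ(n)²`. -/
noncomputable def tn (n : ℕ) : ℂ := riemannZeta (2 * n) / riemannZeta n ^ 2

/-- The family of numbers: `t(n)` for `j = -n`, and `ζ(n) π^j` for all other integers `j`.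
(The number `ζ(n) π^(-n)` left out is the square root of a rational multiple of `1/t(n)`.) -/
noncomputable def num (n : ℕ) (j : ℤ) : ℂ :=
  if j = -n then tn n else riemannZeta n * (Real.pi : ℂ) ^ j

/-- The height of `P ∈ ℤ[X]`: the largest absolute value of a coefficient. -/
noncomputable def height (P : ℤ[X]) : ℕ := P.support.sup fun i => (P.coeff i).natAbs

/-- The irreducible polynomials `P ∈ ℤ[X]` of degree at most `D`, normalised to have positive
leading coefficient (one of `P`, `-P`). -/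
def Irr (D : ℕ) : Set ℤ[X] := {P | Irreducible P ∧ P.natDegree ≤ D ∧ 0 < P.leadingCoeff}

/-- The near relations: the pairs `(j, P)`, `|j| ≤ N`, `P` in `Irr D` of height at most `Y`, with
`|P(num n j)| ≤ (height P) ^ (-w)`. -/
def Near (n N D : ℕ) (w Y : ℝ) : Set (ℤ × ℤ[X]) :=
  {p | |p.1| ≤ N ∧ p.2 ∈ Irr D ∧ ‖aeval (num n p.1) p.2‖ ≤ (height p.2 : ℝ) ^ (-w) ∧
    (height p.2 : ℝ) ≤ Y}

/-- **`t(n)` and the numbers `ζ(n) π^j`, `j ≠ -n`.** -/
theorem result (n : ℕ) (hn : 2 ≤ n) (N D : ℕ) : ∃ κ c : ℝ, 0 < κ ∧ 0 < c ∧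
    (∀ i j : ℤ, |i| ≤ N → |j| ≤ N → i ≠ j → ∀ P Q : ℤ[X], P ≠ 0 → Q ≠ 0 →
      P.natDegree ≤ D → Q.natDegree ≤ D → ∀ H : ℝ, (height P : ℝ) ≤ H → (height Q : ℝ) ≤ H →
        c * H ^ (-κ) ≤ max ‖aeval (num n i) P‖ ‖aeval (num n j) Q‖) ∧
    (∀ w ρ : ℝ, 1 < ρ → ρ < w / κ → ∃ C : ℝ, ∀ Y : ℝ, 3 ≤ Y → (Near n N D w Y).Finite ∧
      ((Near n N D w Y).ncard : ℝ) ≤ Real.log (Real.log Y) / Real.log ρ + C) := by
  have hpi0 : (Real.pi : ℂ) ≠ 0 := by exact_mod_cast Real.pi_ne_zero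
  have hnR : (2 : ℝ) ≤ n := by exact_mod_cast hn
  have hz0 : riemannZeta n ≠ 0 := riemannZeta_ne_zero_of_one_lt_re (by simp; linarith)
  obtain ⟨q, hq0, hq⟩ := Pool.Agent.TH456.TM.zeta_even n (by omega)
  have hqC : (q : ℂ) ≠ 0 := by exact_mod_cast hq0
  have hgen : ∀ i j : ℤ, i ≠ j →
      IsAlgebraic (Algebra.adjoin ℤ ({num n i, num n j} : Set ℂ)) (Real.pi : ℂ) := by
    -- first the case `i ≠ -n`
    have key : ∀ i j : ℤ, i ≠ j → i ≠ -n → ∀ B : Subalgebra ℤ ℂ, num n i ∈ B → num n j ∈ B →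
        IsAlgebraic B (Real.pi : ℂ) := by
      intro i j hij hi B hiB hjB
      have ai : IsAlgebraic B (num n i) := isAlgebraic_algebraMap (⟨num n i, hiB⟩ : B)
      have aj : IsAlgebraic B (num n j) := isAlgebraic_algebraMap (⟨num n j, hjB⟩ : B)
      have hi' : num n i = riemannZeta n * (Real.pi : ℂ) ^ i := by
        unfold num
        rw [if_neg hi]
      by_cases hj : j = -n
      · have hj' : num n j = tn n := by
          unfold num
          rw [if_pos hj]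
        have h1 : num n i ^ 2 * num n j * (q : ℂ)⁻¹ = (Real.pi : ℂ) ^ (2 * (n + i)) := by
          rw [hi', hj', tn, hq, mul_pow, ← zpow_natCast ((Real.pi : ℂ) ^ i) 2, ← zpow_mul,
            ← zpow_natCast (Real.pi : ℂ) (2 * n)]
          have h2 : (Real.pi : ℂ) ^ (2 * ((n : ℤ) + i)) =
              (Real.pi : ℂ) ^ (i * ((2 : ℕ) : ℤ)) * (Real.pi : ℂ) ^ ((2 * n : ℕ) : ℤ) := by
            rw [← zpow_add₀ hpi0]
            congr 1
            push_cast
            ring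
          rw [h2]
          field_simp
        refine Pool.Agent.TH456.TM.pi_of_zpow B (2 * (n + i)) (by omega) ?_
        rw [← h1]
        exact ((ai.pow 2).mul aj).mul (Pool.Agent.TH456.TM.isAlgebraic_rat' B q).inv
      · have hj' : num n j = riemannZeta n * (Real.pi : ℂ) ^ j := by
          unfold num
          rw [if_neg hj]
        refine Pool.Agent.TH456.TM.pi_of_zpow B (i - j) (by omega) ?_
        have h1 : (Real.pi : ℂ) ^ (i - j) = num n i * (num n j)⁻¹ := by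
          rw [hi', hj', zpow_sub₀ hpi0]
          field_simp
        rw [h1]
        exact ai.mul aj.inv
    intro i j hij
    have m1 : num n i ∈ Algebra.adjoin ℤ ({num n i, num n j} : Set ℂ) :=
      Algebra.subset_adjoin (Set.mem_insert _ _)
    have m2 : num n j ∈ Algebra.adjoin ℤ ({num n i, num n j} : Set ℂ) :=
      Algebra.subset_adjoin (Set.mem_insert_of_mem _ rfl)
    by_cases hi : i = -n
    · exact key j i hij.symm (by omega) _ m2 m1
    · exact key i j hij hi _ m1 m2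
  obtain ⟨κ, c, hκ, hc, h1, h2⟩ := Pool.Agent.TH456.TM.fam_gen (Finset.Icc (-(N : ℤ)) N) (num n)
    (fun i _ j _ hij => ⟨_, Pool.Agent.TH456.TM.measT_pi, hgen i j hij⟩)
    _ Pool.Agent.TH456.TM.measT_pi D
  have hS : ∀ i : ℤ, |i| ≤ N → i ∈ Finset.Icc (-(N : ℤ)) N := by
    intro i hi
    rw [Finset.mem_Icc]
    exact abs_le.1 hi
  refine ⟨κ, c, hκ, hc, fun i j hi hj hij => h1 i (hS i hi) j (hS j hj) hij, fun w ρ hρ hρw => ?_⟩
  obtain ⟨C, hC⟩ := Pool.Agent.TH456.TM.sparse_fam (Finset.Icc (-(N : ℤ)) N) (num n) D κ hκ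
    ⟨c, hc, fun u hu v hv P hP Q hQ hne H hPH hQH => by
      by_cases huv : u = v
      · subst huv
        have hPQ : P ≠ Q := fun h => hne (by rw [h])
        exact h2 u hu P hP Q hQ hPQ H hPH hQH
      · exact h1 u hu v hv huv P Q hP.1.ne_zero hQ.1.ne_zero hP.2.1 hQ.2.1 H hPH hQH⟩ w ρ hρ hρw
  refine ⟨C, fun Y hY => ?_⟩
  have hset : Near n N D w Y =
      {p ∈ Pool.Agent.TH456.TM.NearF (Finset.Icc (-(N : ℤ)) N) (num n) D w |
        (Pool.Agent.TH456.TM.ht p.2 : ℝ) ≤ Y} := by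
    ext p
    constructor
    · rintro ⟨a, b, c, d⟩
      exact ⟨⟨hS _ a, b, c⟩, d⟩
    · rintro ⟨⟨a, b, c⟩, d⟩
      exact ⟨abs_le.2 (Finset.mem_Icc.1 a), b, c, d⟩
  rw [hset]
  exact hC Y hY

end Pool.Agent.Results.MP_f1a024_nt.SimultaneousMeasure
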